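import Mathlib
import Pool.Agent.TDV.Stmts

/-!
# Squad TDV: COL and LMP

A process which asks questions about its own past is a column of `K y`; the main lemma for
decidable events.
-/

set_option autoImplicit false

namespace Pool.Agent.TDV.H21

open Pool.Agent.Helper25TD

theorem pre_congr' {x y : ℕ → Bool} {n : ℕ} (h : ∀ i < n, x i = y i) : pre x n = pre y n := by
  unfold pre
  apply List.map_congr_left
  intro i hi
  exact h i (List.mem_range.1 hi)

theorem col (_hVLM : VlmStmt) (hKSP : KspStmt) : ColStmt := by
  intro f hf
  obtain ⟨c, hc⟩ := Nat.Partrec.Code.exists_code.1 hf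
  have hev : ∀ q : List Bool × List Bool, c.eval (Encodable.encode q) = f q := by
    intro q
    rw [hc]
    simp only [Encodable.encodek, Part.coe_some, Part.bind_some]
    exact Part.map_id' (fun _ => rfl) _
  refine ⟨Encodable.encode c, fun y b hb n => ?_⟩
  obtain ⟨-, -, -, h4, -⟩ := hKSP
  induction n using Nat.strong_induction_on with
  | _ n ih =>
    have h1 := h4 y (Encodable.encode c) n
    rw [pre_congr' (fun i hi => ih i hi), Denumerable.ofNat_encode] at h1
    have h2 : K y (2 ^ Encodable.encode c * (2 * n + 1)) = true ↔ b n = true := by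
      rw [h1, hb n]
      simp only [hev]
    exact Bool.eq_iff_iff.2 h2

theorem lmp (hLMG : LmgStmt) : LmpStmt := by
  intro y a Q hQ h
  have hf : Partrec (fun q : (List Bool × List Bool) × List Bool =>
      Part.some (bif Q q then (1 : ℕ) else 0)) :=
    (Primrec.cond hQ (Primrec.const 1) (Primrec.const 0)).to_comp.partrec
  refine hLMG y a _ hf fun n => ?_
  rw [h n]
  refine exists_congr fun N => ?_
  rw [Part.mem_some_iff]
  cases Q ((pre a n, pre (K y) (n + 1)), pre y N) <;> simp

end Pool.Agent.TDV.H21
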